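import Mathlib
import Pool.Agent.H515R2.MedLower

set_option autoImplicit false

namespace Pool.Agent.Results.MP_d08b2e_nt.LinearOrder

open Pool.Agent.H515R2.Med

/-- `m` has a medium divisor: a divisor strictly between `n` and `2n`. -/
def HasMediumDivisor (n m : ℕ) : Prop := ∃ d : ℕ, n < d ∧ d < 2 * n ∧ d ∣ m

/-- `N_n(x,y)`: the number of integers `m` with `x < m < x + y` that have a medium divisor. -/
noncomputable def numMedium (n x y : ℕ) : ℕ :=
  Set.ncard {m : ℕ | x < m ∧ m < x + y ∧ HasMediumDivisor n m}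

/-- `y₀` is an admissible window length: `N_n(x,y) ≤ ε y` for every `x ≥ 0` and every `y ≥ y₀`. -/
def Admissible (ε : ℝ) (n y₀ : ℕ) : Prop :=
  ∀ x y : ℕ, y₀ ≤ y → (numMedium n x y : ℝ) ≤ ε * y

/-- `y(ε,n)`: the least admissible window length, infinity if there is none. -/
noncomputable def windowLength (ε : ℝ) (n : ℕ) : ℕ∞ :=
  sInf {k : ℕ∞ | ∃ y₀ : ℕ, k = (y₀ : ℕ∞) ∧ Admissible ε n y₀}

lemma numMedium_eq (n x y : ℕ) : numMedium n x y = cnt n x y := by
  rw [numMedium, cnt, ← Set.ncard_coe_finset]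
  congr 1
  ext m
  simp only [Set.mem_ofPred_eq, Finset.coe_biUnion, Finset.mem_coe, Finset.mem_Ioo, Set.mem_iUnion,
    Finset.coe_filter, HasMediumDivisor]
  constructor
  · rintro ⟨h1, h2, d, h3, h4, h5⟩
    exact ⟨d, ⟨h3, h4⟩, ⟨h1, h2⟩, h5⟩
  · rintro ⟨d, ⟨h3, h4⟩, ⟨h1, h2⟩, h5⟩
    exact ⟨h1, h2, d, h3, h4, h5⟩

/-- a window with many medium integers bounds every admissible length from below -/
lemma lt_of_admissible {ε : ℝ} {n x y y₀ : ℕ} (h : ε * y < (numMedium n x y : ℝ))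
    (h0 : Admissible ε n y₀) : y < y₀ := by
  by_contra hcon
  push Not at hcon
  exact absurd (h0 x y hcon) (not_le.2 h)

lemma windowLength_le {ε : ℝ} {n y₀ : ℕ} (h : Admissible ε n y₀) :
    windowLength ε n ≤ (y₀ : ℕ∞) := sInf_le ⟨y₀, rfl, h⟩

lemma lt_windowLength {ε : ℝ} {n x y : ℕ} (h : ε * y < (numMedium n x y : ℝ)) :
    ((y + 1 : ℕ) : ℕ∞) ≤ windowLength ε n := by
  apply le_sInf
  rintro k ⟨y₀, rfl, h0⟩
  exact_mod_cast Nat.succ_le_of_lt (lt_of_admissible h h0)

/-- upper bound -/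
lemma upper (ε : ℝ) (h0 : 0 < ε) (h1 : ε < 1) : ∃ N : ℕ, ∀ n ≥ N, ∃ Y : ℕ,
    windowLength ε n = Y ∧ (Y : ℝ) ≤ Real.exp ((100 / ε) ^ 41) * n := by
  obtain ⟨w, hw⟩ : ∃ w, w = ⌈4 / ε⌉₊ := ⟨_, rfl⟩
  obtain ⟨σ, hσ⟩ : ∃ σ, σ = ⌈10 * Real.log (44 / ε)⌉₊ := ⟨_, rfl⟩
  have h4ε : 4 < 4 / ε := by rw [lt_div_iff₀ h0]; linarith
  have hw1 : 4 / ε ≤ w := by rw [hw]; exact Nat.le_ceil _
  have hw2 : (w : ℝ) ≤ 5 / ε := by
    have := Nat.ceil_lt_add_one (a := 4 / ε) (by positivity)
    rw [← hw] at this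
    have h5 : 1 < 1 / ε := by rw [lt_div_iff₀ h0]; linarith
    have h6 : 5 / ε = 4 / ε + 1 / ε := by ring
    linarith
  have hwpos : 1 ≤ w := by
    have : (1 : ℝ) ≤ w := by linarith
    exact_mod_cast this
  have hwR : (0 : ℝ) < w := by exact_mod_cast hwpos
  have hlog : 0 < Real.log (44 / ε) := by
    apply Real.log_pos
    rw [lt_div_iff₀ h0]; linarith
  have hσ1 : 10 * Real.log (44 / ε) ≤ σ := by rw [hσ]; exact Nat.le_ceil _
  have hσ2 : (σ : ℝ) ≤ 10 * Real.log (44 / ε) + 1 := by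
    have := Nat.ceil_lt_add_one (a := 10 * Real.log (44 / ε)) (by positivity)
    rw [← hσ] at this
    exact this.le
  have hw3 : 1 / (w : ℝ) ≤ ε / 4 := by
    rw [div_le_div_iff₀ hwR (by norm_num)]
    have := mul_le_mul_of_nonneg_right hw1 h0.le
    rw [div_mul_cancel₀ _ h0.ne'] at this
    linarith
  have hσ3 : 11 * (9 / 10 : ℝ) ^ σ ≤ ε / 4 := by
    have e1 : (9 / 10 : ℝ) ≤ Real.exp (-(1 / 10)) := by
      have := Real.add_one_le_exp (-(1 / 10) : ℝ)
      linarith
    have e2 : (9 / 10 : ℝ) ^ σ ≤ Real.exp (-(1 / 10)) ^ σ := pow_le_pow_left₀ (by norm_num) e1 σ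
    rw [← Real.exp_nat_mul] at e2
    have e3 : Real.exp ((σ : ℝ) * -(1 / 10)) ≤ Real.exp (-Real.log (44 / ε)) := by
      apply Real.exp_le_exp.2
      linarith
    rw [Real.exp_neg, Real.exp_log (by positivity)] at e3
    have e4 : (44 / ε)⁻¹ = ε / 44 := by rw [inv_div]
    rw [e4] at e3
    linarith
  obtain ⟨M, hM⟩ := upper_param w σ hwpos
  obtain ⟨C, hC⟩ : ∃ C : ℝ, C = Real.exp (w * Real.exp (4 * σ + 5)) := ⟨_, rfl⟩
  have hC0 : 0 < C := by rw [hC]; exact Real.exp_pos _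
  -- the size of the constant
  have hexp : Real.exp (4 * (σ : ℝ) + 5) ≤ 8200 * (44 / ε) ^ 40 := by
    have e1 : 4 * (σ : ℝ) + 5 ≤ 40 * Real.log (44 / ε) + 9 := by linarith
    have e2 : Real.exp (40 * Real.log (44 / ε)) = (44 / ε) ^ 40 := by
      have e3 : (40 : ℝ) * Real.log (44 / ε) = ((40 : ℕ) : ℝ) * Real.log (44 / ε) := by norm_num
      rw [e3, Real.exp_nat_mul, Real.exp_log (by positivity)]
    have e3 : Real.exp 9 ≤ 8200 := by
      have e4 : Real.exp 9 = Real.exp 1 ^ 9 := by rw [← Real.exp_nat_mul]; norm_num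
      rw [e4]
      have e5 := Real.exp_one_lt_d9
      have e6 : Real.exp 1 ^ 9 ≤ (2.72 : ℝ) ^ 9 :=
        pow_le_pow_left₀ (Real.exp_pos _).le (by linarith) 9
      refine e6.trans ?_
      norm_num
    calc Real.exp (4 * (σ : ℝ) + 5) ≤ Real.exp (40 * Real.log (44 / ε) + 9) :=
          Real.exp_le_exp.2 e1
      _ = Real.exp 9 * (44 / ε) ^ 40 := by rw [Real.exp_add, e2]; ring
      _ ≤ _ := mul_le_mul_of_nonneg_right e3 (by positivity)
  have hCle : C + 1 ≤ Real.exp ((100 / ε) ^ 41) := by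
    have e1 : (w : ℝ) * Real.exp (4 * (σ : ℝ) + 5) ≤ (5 / ε) * (8200 * (44 / ε) ^ 40) :=
      mul_le_mul hw2 hexp (Real.exp_pos _).le (by positivity)
    have hi : 1 ≤ (1 / ε) ^ 41 := by
      apply one_le_pow₀
      rw [le_div_iff₀ h0]; linarith
    have e2 : (5 / ε) * (8200 * (44 / ε) ^ 40) + 1 ≤ (100 / ε) ^ 41 := by
      have e3 : (5 / ε) * (8200 * (44 / ε) ^ 40) = (5 * 8200 * 44 ^ 40) * (1 / ε) ^ 41 := by
        field_simp
      have e4 : (100 / ε) ^ 41 = 100 ^ 41 * (1 / ε) ^ 41 := by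
        rw [← mul_pow]; congr 1; ring
      rw [e3, e4]
      have e5 : ((5 * 8200 * 44 ^ 40 : ℝ) + 1) * (1 / ε) ^ 41 ≤ 100 ^ 41 * (1 / ε) ^ 41 := by
        apply mul_le_mul_of_nonneg_right _ (by positivity)
        norm_num
      linarith
    have e6 : Real.exp ((w : ℝ) * Real.exp (4 * (σ : ℝ) + 5) + 1) ≤ Real.exp ((100 / ε) ^ 41) :=
      Real.exp_le_exp.2 (by linarith)
    refine le_trans ?_ e6
    rw [Real.exp_add, ← hC]
    have e7 : 2 ≤ Real.exp 1 := by
      have := Real.exp_one_gt_d9; linarith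
    have e8 : 1 ≤ C := by rw [hC]; exact Real.one_le_exp (by positivity)
    nlinarith
  obtain ⟨N, hN⟩ := exists_nat_ge (max (max C (4 * M / ε)) 1)
  refine ⟨N, fun n hn => ?_⟩
  have hnR : max (max C (4 * M / ε)) 1 ≤ (n : ℝ) := hN.trans (by exact_mod_cast hn)
  have hnC : C ≤ n := le_trans (le_trans (le_max_left _ _) (le_max_left _ _)) hnR
  have hnM : 4 * M / ε ≤ n := le_trans (le_trans (le_max_right _ _) (le_max_left _ _)) hnR
  have hn1 : (1 : ℝ) ≤ n := le_trans (le_max_right _ _) hnR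
  have hnpos : 0 < n := by
    have : (0 : ℝ) < n := by linarith
    exact_mod_cast this
  have hC1 : 1 ≤ C := by rw [hC]; exact Real.one_le_exp (by positivity)
  have hadm : Admissible ε n ⌈C * n⌉₊ := by
    intro x y hy
    have hyC : C * n ≤ y := (Nat.le_ceil _).trans (by exact_mod_cast hy)
    have hyn : (n : ℝ) ≤ y := by nlinarith
    have hypos : 0 < y := by
      have : (0 : ℝ) < y := by linarith
      exact_mod_cast this
    have h5 := hM n x y hnpos hypos (hC ▸ hnC) (hC ▸ hyC)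
    rw [numMedium_eq]
    refine h5.trans ?_
    have h6 : (y : ℝ) * (1 / w + 11 * (9 / 10) ^ σ) ≤ y * (ε / 4 + ε / 4) :=
      mul_le_mul_of_nonneg_left (by linarith) (Nat.cast_nonneg _)
    have h7 : M ≤ ε / 4 * n := by
      have : 4 * M ≤ n * ε := by rwa [div_le_iff₀ h0] at hnM
      linarith
    have h8 : ε / 4 * n ≤ ε / 4 * y := mul_le_mul_of_nonneg_left hyn (by positivity)
    nlinarith
  have h5 := windowLength_le hadm
  obtain ⟨Y, hY⟩ : ∃ Y : ℕ, windowLength ε n = Y := by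
    have : windowLength ε n ≠ ⊤ := ne_top_of_le_ne_top (ENat.natCast_ne_top _) h5
    exact ⟨(windowLength ε n).toNat, (ENat.natCast_toNat this).symm⟩
  refine ⟨Y, hY, ?_⟩
  rw [hY] at h5
  have h6 : Y ≤ ⌈C * n⌉₊ := by exact_mod_cast h5
  have h7 : (Y : ℝ) ≤ (⌈C * n⌉₊ : ℝ) := by exact_mod_cast h6
  have h8 := Nat.ceil_lt_add_one (a := C * n) (by positivity)
  have h9 : C * n + 1 ≤ (C + 1) * n := by linarith
  have h10 : (C + 1) * n ≤ Real.exp ((100 / ε) ^ 41) * n :=
    mul_le_mul_of_nonneg_right hCle (by linarith)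
  linarith

/-- lower bound for large `1/ε` -/
lemma lower_big (ε : ℝ) (h0 : 0 < ε) (h1 : 60 ≤ 1 / ε) : ∃ N : ℕ, ∀ n ≥ N, ∀ Y : ℕ,
    windowLength ε n = Y → Real.exp ((1 / ε - 1) / 60) * n ≤ Y := by
  obtain ⟨E, hE⟩ : ∃ E : ℝ, E = 1 / ε := ⟨_, rfl⟩
  have hεE : ε = 1 / E := by rw [hE]; simp
  rw [← hE] at h1 ⊢
  obtain ⟨K, hK⟩ : ∃ K, K = ⌊Real.exp (E / 32)⌋₊ := ⟨_, rfl⟩
  have hK1 : (K : ℝ) ≤ Real.exp (E / 32) := by rw [hK]; exact Nat.floor_le (Real.exp_pos _).le
  have hK2 : Real.exp (E / 32) - 1 < K := by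
    rw [hK]; exact Nat.sub_one_lt_floor _
  have hexp2 : 2 ≤ Real.exp (E / 32) := by
    have := Real.add_one_le_exp (E / 32)
    linarith
  have hKpos : 1 ≤ K := by
    have : (0 : ℝ) < K := by linarith
    exact_mod_cast this
  have hKR : (1 : ℝ) ≤ K := by exact_mod_cast hKpos
  obtain ⟨H, hH⟩ : ∃ H : ℝ, H = 1 + Real.log (2 * K) := ⟨_, rfl⟩
  have hH1 : H ≤ 1.7 + E / 32 := by
    have e1 : Real.log (2 * K) ≤ Real.log 2 + E / 32 := by
      rw [Real.log_mul (by norm_num) (by positivity)]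
      have e2 : Real.log K ≤ Real.log (Real.exp (E / 32)) := Real.log_le_log (by linarith) hK1
      rw [Real.log_exp] at e2
      linarith
    have e3 := Real.log_two_lt_d9
    rw [hH]; linarith
  have hH0 : 0 < H := by
    rw [hH]
    have : 0 ≤ Real.log (2 * K) := Real.log_nonneg (by linarith)
    linarith
  have hδ : 16 * ε * H ≤ 0.96 := by
    have e1 : 16 * H ≤ 0.96 * E := by linarith
    have e2 : E * ε = 1 := by rw [hE]; field_simp
    have e3 := mul_le_mul_of_nonneg_left e1 h0.le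
    nlinarith
  obtain ⟨N, hN⟩ := exists_nat_gt (max ((2 + 4 * ε * K) / 0.04) 1)
  refine ⟨N, fun n hn Y hY => ?_⟩
  have hnR : max ((2 + 4 * ε * K) / 0.04) 1 < (n : ℝ) := hN.trans_le (by exact_mod_cast hn)
  have hn2 : (2 + 4 * ε * K) / 0.04 < n := lt_of_le_of_lt (le_max_left _ _) hnR
  have hn1 : (1 : ℝ) < n := lt_of_le_of_lt (le_max_right _ _) hnR
  have hnpos : 1 ≤ n := by
    have : (0 : ℝ) < n := by linarith
    exact_mod_cast this
  have hcount := lower_count n K hnpos hKpos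
  rw [← hH] at hcount
  have hgood : ε * ((4 * n * K : ℕ) : ℝ) < (numMedium n 0 (4 * n * K) : ℝ) := by
    rw [numMedium_eq]
    by_contra hcon
    push Not at hcon
    have e1 : (0 : ℝ) ≤ n * (4 * K * H) + (K : ℝ) ^ 2 := by positivity
    have e2 := mul_le_mul_of_nonneg_right hcon e1
    have e3 := hcount.trans e2
    push_cast at e3
    -- divide by K^2
    have e4 : ((n : ℝ) - 1) ^ 2 ≤ (16 * ε * H) * n ^ 2 + 4 * ε * K * n := by
      have e5 : (K : ℝ) ^ 2 * ((n : ℝ) - 1) ^ 2 ≤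
          (K : ℝ) ^ 2 * ((16 * ε * H) * n ^ 2 + 4 * ε * K * n) := by
        calc (K : ℝ) ^ 2 * ((n : ℝ) - 1) ^ 2 = ((n : ℝ) - 1) ^ 2 * (K : ℝ) ^ 2 := by ring
          _ ≤ _ := e3
          _ = _ := by ring
      exact le_of_mul_le_mul_left e5 (by positivity)
    have e6 : (16 * ε * H) * (n : ℝ) ^ 2 ≤ 0.96 * n ^ 2 :=
      mul_le_mul_of_nonneg_right hδ (by positivity)
    have e7 : 2 + 4 * ε * K < 0.04 * n := by
      rw [div_lt_iff₀ (by norm_num)] at hn2
      linarith
    have e8 : (2 + 4 * ε * K) * n < 0.04 * n * n := mul_lt_mul_of_pos_right e7 (by linarith)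
    nlinarith
  have h5 := lt_windowLength hgood
  rw [hY] at h5
  have h6 : 4 * n * K + 1 ≤ Y := by exact_mod_cast h5
  have h7 : ((4 * n * K + 1 : ℕ) : ℝ) ≤ Y := by exact_mod_cast h6
  push_cast at h7
  have h8 : Real.exp ((E - 1) / 60) ≤ Real.exp (E / 32) := Real.exp_le_exp.2 (by linarith)
  have h9 : Real.exp ((E - 1) / 60) ≤ 4 * K := by linarith
  have h10 : Real.exp ((E - 1) / 60) * n ≤ 4 * K * n := mul_le_mul_of_nonneg_right h9 (by linarith)
  linarith

/-- lower bound for bounded `1/ε` -/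
lemma lower_small (ε : ℝ) (h0 : 0 < ε) (hε : ε < 1) (h1 : 1 / ε < 60) : ∃ N : ℕ, ∀ n ≥ N, ∀ Y : ℕ,
    windowLength ε n = Y → Real.exp ((1 / ε - 1) / 60) * n ≤ Y := by
  obtain ⟨E, hE⟩ : ∃ E : ℝ, E = 1 / ε := ⟨_, rfl⟩
  have hE1 : 1 < E := by rw [hE, lt_div_iff₀ h0]; linarith
  have hEε : E * ε = 1 := by rw [hE]; field_simp
  rw [← hE] at h1 ⊢
  have hlt : Real.exp ((E - 1) / 60) < E := by
    rw [← Real.lt_log_iff_exp_lt (by linarith)]
    have e1 := Real.one_sub_inv_le_log_of_pos (x := E) (by linarith)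
    have e2 : (E - 1) / 60 < 1 - E⁻¹ := by
      have e3 : 1 - E⁻¹ = (E - 1) / E := by field_simp
      rw [e3]
      apply div_lt_div_of_pos_left (by linarith) (by linarith) h1
    linarith
  obtain ⟨N, hN⟩ := exists_nat_gt (max (E / (E - Real.exp ((E - 1) / 60))) 1)
  refine ⟨N, fun n hn Y hY => ?_⟩
  have hnR : max (E / (E - Real.exp ((E - 1) / 60))) 1 < (n : ℝ) := hN.trans_le (by exact_mod_cast hn)
  have hn2 : E / (E - Real.exp ((E - 1) / 60)) < n := lt_of_le_of_lt (le_max_left _ _) hnR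
  have hn1 : (1 : ℝ) < n := lt_of_le_of_lt (le_max_right _ _) hnR
  have hnpos : 1 < n := by exact_mod_cast hn1
  -- the window starting at n
  have hkey : (((n : ℝ) - 1) * E) ≤ Y := by
    by_contra hcon
    push Not at hcon
    have hgood : ε * (Y : ℝ) < (numMedium n n Y : ℝ) ∨ Y < n := by
      by_cases hYn : Y < n
      · right; exact hYn
      · left
        push Not at hYn
        have e1 : n - 1 ≤ numMedium n n Y := by
          have e2 : (Finset.Ioo n (2 * n)).card = n - 1 := by rw [Nat.card_Ioo]; omega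
          rw [← e2, ← Set.ncard_coe_finset, numMedium]
          apply Set.ncard_le_ncard
          · intro m hm
            rw [Finset.mem_coe, Finset.mem_Ioo] at hm
            exact ⟨hm.1, by omega, m, hm.1, hm.2, dvd_rfl⟩
          · exact (Set.finite_Ioo n (n + Y)).subset (fun m hm => ⟨hm.1, hm.2.1⟩)
        have e3 : ((n - 1 : ℕ) : ℝ) ≤ (numMedium n n Y : ℝ) := by exact_mod_cast e1
        rw [Nat.cast_sub (by omega)] at e3
        push_cast at e3
        have e4 : ε * Y < ε * (((n : ℝ) - 1) * E) := mul_lt_mul_of_pos_left hcon h0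
        have e5 : ε * (((n : ℝ) - 1) * E) = (n : ℝ) - 1 := by
          calc ε * (((n : ℝ) - 1) * E) = ((n : ℝ) - 1) * (E * ε) := by ring
            _ = _ := by rw [hEε, mul_one]
        linarith
    rcases hgood with hg | hg
    · have h5 := lt_windowLength hg
      rw [hY] at h5
      have h6 : Y + 1 ≤ Y := by exact_mod_cast h5
      omega
    · -- use the window of length n instead
      have e1 : n - 1 ≤ numMedium n n n := by
        have e2 : (Finset.Ioo n (2 * n)).card = n - 1 := by rw [Nat.card_Ioo]; omega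
        rw [← e2, ← Set.ncard_coe_finset, numMedium]
        apply Set.ncard_le_ncard
        · intro m hm
          rw [Finset.mem_coe, Finset.mem_Ioo] at hm
          exact ⟨hm.1, by omega, m, hm.1, hm.2, dvd_rfl⟩
        · exact (Set.finite_Ioo n (n + n)).subset (fun m hm => ⟨hm.1, hm.2.1⟩)
      have e3 : ((n - 1 : ℕ) : ℝ) ≤ (numMedium n n n : ℝ) := by exact_mod_cast e1
      rw [Nat.cast_sub (by omega)] at e3
      push_cast at e3
      have e4 : ε * n < (numMedium n n n : ℝ) := by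
        -- ε n < n - 1
        have e5 : E < n * (E - 1) := by
          have e6 : E - Real.exp ((E - 1) / 60) ≤ E - 1 := by
            have := Real.one_le_exp (x := (E - 1) / 60) (by apply div_nonneg <;> linarith)
            linarith
          have e7 : E / (E - 1) ≤ E / (E - Real.exp ((E - 1) / 60)) := by
            apply div_le_div_of_nonneg_left (by linarith) (by linarith) e6
          have e8 : E / (E - 1) < n := lt_of_le_of_lt e7 hn2
          rw [div_lt_iff₀ (by linarith)] at e8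
          exact e8
        have e6 : ε * E < ε * (n * (E - 1)) := mul_lt_mul_of_pos_left e5 h0
        have e7 : ε * (n * (E - 1)) = n * (E * ε) - ε * n := by ring
        rw [e7, hEε, mul_comm ε E, hEε] at e6
        linarith
      have h5 := lt_windowLength e4
      rw [hY] at h5
      have h6 : n + 1 ≤ Y := by exact_mod_cast h5
      omega
  have h8 : E < n * (E - Real.exp ((E - 1) / 60)) := by
    rw [div_lt_iff₀ (by linarith)] at hn2
    exact hn2
  nlinarith

/-- **Main result.** For every `0 < ε < 1` and all large `n`, the window length `y(ε,n)` is finite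
and lies between two explicit constant multiples of `n`; for `ε ≥ 1` it is zero. -/
theorem result :
    (∀ ε : ℝ, 0 < ε → ε < 1 → ∃ N : ℕ, ∀ n ≥ N, ∃ Y : ℕ, windowLength ε n = Y ∧
      Real.exp ((1 / ε - 1) / 60) * n ≤ Y ∧ (Y : ℝ) ≤ Real.exp ((100 / ε) ^ 41) * n) ∧
    (∀ ε : ℝ, 1 ≤ ε → ∀ n : ℕ, windowLength ε n = 0) := by
  constructor
  · intro ε h0 h1
    obtain ⟨N1, hN1⟩ := upper ε h0 h1
    obtain ⟨N2, hN2⟩ : ∃ N : ℕ, ∀ n ≥ N, ∀ Y : ℕ,
        windowLength ε n = Y → Real.exp ((1 / ε - 1) / 60) * n ≤ Y := by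
      rcases lt_or_ge (1 / ε) 60 with h2 | h2
      · exact lower_small ε h0 h1 h2
      · exact lower_big ε h0 h2
    refine ⟨max N1 N2, fun n hn => ?_⟩
    obtain ⟨Y, hY1, hY2⟩ := hN1 n (le_trans (le_max_left _ _) hn)
    exact ⟨Y, hY1, hN2 n (le_trans (le_max_right _ _) hn) Y hY1, hY2⟩
  · intro ε h1 n
    have hadm : Admissible ε n 0 := by
      intro x y _
      have e1 : numMedium n x y ≤ (Finset.Ioo x (x + y)).card := by
        rw [← Set.ncard_coe_finset, numMedium]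
        apply Set.ncard_le_ncard
        · intro m hm
          rw [Finset.mem_coe, Finset.mem_Ioo]
          exact ⟨hm.1, hm.2.1⟩
        · exact Finset.finite_toSet _
      rw [Nat.card_Ioo] at e1
      have e2 : numMedium n x y ≤ y := by omega
      have e3 : (numMedium n x y : ℝ) ≤ y := by exact_mod_cast e2
      have e4 : (0 : ℝ) ≤ y := Nat.cast_nonneg y
      nlinarith
    have := windowLength_le hadm
    simpa using this

end Pool.Agent.Results.MP_d08b2e_nt.LinearOrder
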